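import Pool.Agent.H4.FT.Start
import Pool.Agent.H4.FT.Main
import Pool.Agent.H4.Loop.Final

/-!
# Finite simple automorphic loops of even order

A loop is a set `Q` with an operation `op` and an identity `e` such that all left translations `op a`
and all right translations `fun z => op z a` are bijective. It is automorphic if its inner mappings
`L_{x,y} = L_{xy}⁻¹L_xL_y`, `R_{x,y} = R_{xy}⁻¹R_yR_x` and `T_x = L_x⁻¹R_x` are automorphisms; these
generate the inner mapping group. It is simple if equality and the total relation are its only
congruences.

Every finite simple automorphic loop of even order in which `y * y ≠ e` for some `y` is associative.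
-/

set_option autoImplicit false

namespace Pool.Agent.Results.MP_52f71e_al.EvenOrder

theorem result (Q : Type) [Finite Q] (op : Q → Q → Q) (e : Q)
    -- `Q` is a loop with identity `e`
    (hid : ∀ x, op e x = x ∧ op x e = x)
    (hbij : ∀ a, Function.Bijective (op a) ∧ Function.Bijective (fun z => op z a))
    -- `L_{x,y}`, `R_{x,y}` and `T_x` are automorphisms
    (hLxy : ∀ x y u v a b c, op (op x y) a = op x (op y u) → op (op x y) b = op x (op y v) →
      op (op x y) c = op x (op y (op u v)) → c = op a b)
    (hRxy : ∀ x y u v a b c, op a (op x y) = op (op u x) y → op b (op x y) = op (op v x) y →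
      op c (op x y) = op (op (op u v) x) y → c = op a b)
    (hTx : ∀ x u v a b c, op x a = op u x → op x b = op v x → op x c = op (op u v) x →
      c = op a b)
    -- `Q` is simple
    (hsimple : ∀ r : Q → Q → Prop, Equivalence r →
      (∀ a b c d, r a b → r c d → r (op a c) (op b d)) → (∀ a b, r a b → a = b) ∨ (∀ a b, r a b))
    -- `Q` has even order and is not of exponent two
    (heven : Even (Nat.card Q)) (hexp : ∃ y, op y y ≠ e) :
    ∀ x y z, op (op x y) z = op x (op y z) := by
  obtain ⟨J, h⟩ := ALoop.al_of_loop (fun a => Equiv.ofBijective (op a) (hbij a).1)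
    (fun a => Equiv.ofBijective (fun z => op z a) (hbij a).2) e (fun _ _ => rfl) hid
    (fun g hg hge => Pool.Agent.H4.FT.inn_of_gens op e _ _ (fun _ _ => rfl) (fun _ _ => rfl) hid
      hLxy hRxy hTx g hg hge) hsimple hexp
  exact h.assoc heven.two_dvd

end Pool.Agent.Results.MP_52f71e_al.EvenOrder
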