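import Pool.Agent.H71.TP.Fin

/-!
# Sylow 2-subloops of finite automorphic loops

A loop on `Q` with identity `e` is given by its left translations `L x` and right translations `R y`
(`x * y = L x y = R y x`). `G = Mlt(Q)` is the subgroup of `Perm Q` generated by all of them, and the
inner mappings are the elements of `G` that fix `e`.

Let `Q` be a finite automorphic loop of even order. There are subloops `K ⊆ M ⊆ F` of `Q` such that
* the order of `M` is the largest power of two dividing the order of `Q` (a Sylow 2-subloop);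
* `K` is normal in `F` (the elements of the group generated by the translations by elements of `F`
  that fix `e` map `K` into `K`), has exponent two, its elements commute with those of `F`, and some
  `a ≠ e` in `K` has an odd number of images under the inner mappings of `Q`;
* if `Q` is simple and `x * x ≠ e` for some `x`, then `F` is not the whole of `Q`.
-/

set_option autoImplicit false

namespace Pool.Agent.Results.MP_52f71e_al.SylowTwo

theorem result (Q : Type) [Finite Q] (L R : Q → Equiv.Perm Q) (e : Q)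
    (hLR : ∀ x y, L x y = R y x) (he : ∀ x, L e x = x ∧ L x e = x)
    (G : Subgroup (Equiv.Perm Q)) (hG : G = Subgroup.closure (Set.range L ∪ Set.range R))
    (hautomorphic : ∀ g ∈ G, g e = e → ∀ x y, g (L x y) = L (g x) (g y))
    (heven : 2 ∣ Nat.card Q) :
    ∃ K M F : Set Q, K ⊆ M ∧ M ⊆ F ∧
      (∀ S ∈ ({K, M, F} : Set (Set Q)), e ∈ S ∧
        ∀ x ∈ S, ∀ y ∈ S, L x y ∈ S ∧ (L x)⁻¹ y ∈ S ∧ (R x)⁻¹ y ∈ S) ∧
      Nat.card M = 2 ^ padicValNat 2 (Nat.card Q) ∧
      padicValNat 2 (Nat.card F) = padicValNat 2 (Nat.card Q) ∧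
      (∀ g ∈ Subgroup.closure (L '' F ∪ R '' F), g e = e → ∀ k ∈ K, g k ∈ K) ∧
      (∀ k ∈ K, L k k = e ∧ ∀ y ∈ F, L k y = L y k) ∧
      (∃ a ∈ K, a ≠ e ∧ Odd (Nat.card {b // ∃ g ∈ G, g e = e ∧ g a = b})) ∧
      ((∀ r : Q → Q → Prop, Equivalence r →
          (∀ a b c d, r a b → r c d → r (L a c) (L b d)) →
          (∀ a b, r a b → a = b) ∨ (∀ a b, r a b)) →
        (∃ x, L x x ≠ e) → F ≠ Set.univ) := by
  subst hG
  exact ALoop.Lp.final ⟨hLR, fun x => (he x).1, fun x => (he x).2, hautomorphic⟩ heven

end Pool.Agent.Results.MP_52f71e_al.SylowTwo
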